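import Pool.Agent.Q178.Orth.Defs

set_option autoImplicit false

/-!
Iterated orthogonals in the category of topological spaces: the first transitions.
-/

universe u

namespace Q178.Orth

open CategoryTheory Set Topology TopologicalSpace

lemma iso_llp {W : MorphismProperty TopCat.{u}} {A B : TopCat.{u}} (f : A ⟶ B)
    (hf : Iso f) : W.llp f := by
  rw [llp_iff]
  intro X Y g _ u v hu hv huv
  obtain ⟨e, he⟩ := (isHomeomorph_iff_exists_homeomorph (f := (f : A → B))).1 hf
  have h1 : ∀ a, e.symm (f a) = a := fun a => by rw [← he]; exact e.symm_apply_apply a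
  have h2 : ∀ b, f (e.symm b) = b := fun b => by rw [← he]; exact e.apply_symm_apply b
  refine ⟨u ∘ e.symm, hu.comp e.symm.continuous, fun a => ?_, fun b => ?_⟩
  · rw [Function.comp_apply, h1]
  · rw [Function.comp_apply, huv, h2]

lemma iso_rlp {W : MorphismProperty TopCat.{u}} {A B : TopCat.{u}} (f : A ⟶ B)
    (hf : Iso f) : W.rlp f := by
  rw [rlp_iff]
  intro X Y g _ u v hu hv huv
  obtain ⟨e, he⟩ := (isHomeomorph_iff_exists_homeomorph (f := (f : A → B))).1 hf
  have h1 : ∀ a, e.symm (f a) = a := fun a => by rw [← he]; exact e.symm_apply_apply a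
  have h2 : ∀ b, f (e.symm b) = b := fun b => by rw [← he]; exact e.apply_symm_apply b
  refine ⟨e.symm ∘ v, e.symm.continuous.comp hv, fun a => ?_, fun b => ?_⟩
  · rw [Function.comp_apply, ← huv, h1]
  · rw [Function.comp_apply, h2]

lemma lp_of_iso {A B : TopCat.{u}} (f : A ⟶ B) (hf : Iso f) {X Y : TopCat.{u}} (g : X ⟶ Y) :
    LP f g := (llp_iff f).1 (iso_llp (W := All) f hf) g trivial

/-- A map which lifts against itself is a homeomorphism. -/
lemma iso_of_self {A B : TopCat.{u}} (f : A ⟶ B) (h : LP f f) : Iso f := by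
  obtain ⟨s, hs, h1, h2⟩ := h id id continuous_id continuous_id (fun _ => rfl)
  let e : A ≃ₜ B :=
    { toFun := f
      invFun := s
      left_inv := h1
      right_inv := h2
      continuous_toFun := f.hom.continuous
      continuous_invFun := hs }
  exact e.isHomeomorph

/-! ### `Iso` and `All` -/

lemma iso_llp_eq : Iso.{u}.llp = All := by
  ext A B f
  refine ⟨fun _ => trivial, fun _ => ?_⟩
  rw [llp_iff]
  intro X Y g hg
  exact (rlp_iff g).1 (iso_rlp (W := All) g hg) f trivial

lemma iso_rlp_eq : Iso.{u}.rlp = All := by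
  ext A B f
  refine ⟨fun _ => trivial, fun _ => ?_⟩
  rw [rlp_iff]
  intro X Y g hg
  exact (llp_iff g).1 (iso_llp (W := All) g hg) f trivial

lemma all_llp_eq : All.{u}.llp = Iso := by
  ext A B f
  exact ⟨fun h => iso_of_self f ((llp_iff f).1 h f trivial), fun h => iso_llp f h⟩

lemma all_rlp_eq : All.{u}.rlp = Iso := by
  ext A B f
  exact ⟨fun h => iso_of_self f ((rlp_iff f).1 h f trivial), fun h => iso_rlp f h⟩

/-! ### The class `C0` -/

lemma C0_llp_eq : C0.{u}.llp = NE := by
  ext A B f
  rw [llp_iff]
  constructor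
  · intro h hA
    obtain ⟨k, -, -, -⟩ := h emptyToPoint ⟨()⟩ (fun a => (hA.false a).elim) (fun _ => PUnit.unit)
      (continuous_of_const fun a => (hA.false a).elim) continuous_const
      (fun a => (hA.false a).elim)
    exact ⟨fun b => (k b).elim⟩
  · rintro h X Y g ⟨_⟩ u v hu hv huv
    have hA : IsEmpty A := ⟨fun a => (u a).elim⟩
    have hB := h hA
    exact ⟨fun b => (hB.false b).elim, continuous_of_const fun b => (hB.false b).elim,
      fun a => (hA.false a).elim, fun b => (hB.false b).elim⟩

lemma C0_rlp_eq : C0.{u}.rlp = Surj := by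
  ext A B f
  rw [rlp_iff]
  constructor
  · intro h b
    obtain ⟨k, -, -, hk⟩ := h emptyToPoint ⟨()⟩ (fun x => x.elim) (fun _ => b)
      continuous_of_discreteTopology continuous_const (fun x => x.elim)
    exact ⟨k PUnit.unit, hk PUnit.unit⟩
  · rintro h X Y g ⟨_⟩ u v hu hv huv
    obtain ⟨a, ha⟩ := h (v PUnit.unit)
    exact ⟨fun _ => a, continuous_const, fun x => x.elim, fun _ => ha⟩

/-! ### `NE` and `E0` -/

lemma mem_NE_of_nonempty {A B : TopCat.{u}} (f : A ⟶ B) (h : Nonempty A) : NE f :=
  fun hA => ((not_isEmpty_iff.2 h) hA).elim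

lemma NE_llp_eq : NE.{u}.llp = Iso := by
  ext A B f
  refine ⟨fun h => ?_, fun h => iso_llp f h⟩
  apply iso_of_self
  by_cases hA : Nonempty A
  · exact (llp_iff f).1 h f (mem_NE_of_nonempty f hA)
  · have hA' : IsEmpty A := not_nonempty_iff.1 hA
    have hB : IsEmpty B := by
      by_contra hB
      obtain ⟨b⟩ := not_isEmpty_iff.1 hB
      obtain ⟨k, -, -, hk⟩ := llp_test h (fun _ : PUnit.{u + 1} => i0.{u}) continuous_const
        (mem_NE_of_nonempty _ ⟨PUnit.unit⟩) (fun a => (hA'.false a).elim) (fun _ => i1)
        (continuous_of_const fun a => (hA'.false a).elim) continuous_const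
        (fun a => (hA'.false a).elim)
      exact i0_ne_i1 (hk b)
    intro u v hu hv huv
    exact ⟨fun b => (hB.false b).elim, continuous_of_const fun b => (hB.false b).elim,
      fun a => (hA'.false a).elim, fun b => (hB.false b).elim⟩

lemma NE_rlp_eq : NE.{u}.rlp = E0 := by
  ext A B f
  constructor
  · intro h
    by_cases hA : Nonempty A
    · exact Or.inr (iso_of_self f ((rlp_iff f).1 h f (mem_NE_of_nonempty f hA)))
    · exact Or.inl (not_nonempty_iff.1 hA)
  · rintro (h | h)
    · rw [rlp_iff]
      intro X Y g hg u v hu hv huv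
      have hX : IsEmpty X := ⟨fun x => h.false (u x)⟩
      have hY := hg hX
      exact ⟨fun b => (hY.false b).elim, continuous_of_const fun b => (hY.false b).elim,
        fun a => (hX.false a).elim, fun b => (hY.false b).elim⟩
    · exact iso_rlp f h

lemma E0_llp_eq : E0.{u}.llp = NE := by
  ext A B f
  constructor
  · intro h hA
    obtain ⟨k, -, -, -⟩ := llp_test h (fun x : PEmpty.{u + 1} => (x.elim : B))
      continuous_of_discreteTopology (Or.inl (by infer_instance : IsEmpty PEmpty.{u + 1}))
      (fun a => (hA.false a).elim) (fun b => b)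
      (continuous_of_const fun a => (hA.false a).elim) continuous_id
      (fun a => (hA.false a).elim)
    exact ⟨fun b => (k b).elim⟩
  · intro h
    rw [← NE_rlp_eq]
    exact NE.le_llp_rlp f h

lemma E0_rlp_eq : E0.{u}.rlp = Ret := by
  ext A B f
  constructor
  · intro h
    obtain ⟨k, hk, -, hk2⟩ := rlp_test h (fun x : PEmpty.{u + 1} => (x.elim : B))
      continuous_of_discreteTopology (Or.inl (by infer_instance : IsEmpty PEmpty.{u + 1}))
      (fun x => x.elim) (fun b => b) continuous_of_discreteTopology continuous_id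
      (fun x => x.elim)
    exact ⟨k, hk, hk2⟩
  · rintro ⟨s, hs, hs2⟩
    rw [rlp_iff]
    rintro X Y g (hX | hg) u v hu hv huv
    · exact ⟨s ∘ v, hs.comp hv, fun x => (hX.false x).elim, fun y => hs2 _⟩
    · exact lp_of_iso g hg f u v hu hv huv

/-! ### `Ret`, `Sum`, `Inj`, `Quot`, `IS`, `T0F` -/

lemma Ret_llp_eq : Ret.{u}.llp = Sum := by
  ext A B f
  constructor
  · intro h
    -- the test map `A ⊔ B → B`
    have hc : Continuous (Sum.elim (f : A → B) (id : B → B)) :=
      f.hom.continuous.sumElim continuous_id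
    obtain ⟨k, hk, hk1, hk2⟩ := llp_test h (X := A ⊕ B) (Sum.elim (f : A → B) (id : B → B)) hc
      ⟨Sum.inr, continuous_inr, fun b => rfl⟩ Sum.inl id continuous_inl continuous_id
      (fun a => rfl)
    have hinj : Function.Injective f := by
      intro a a' haa
      have : (Sum.inl a : A ⊕ B) = Sum.inl a' := by rw [← hk1, ← hk1, haa]
      exact Sum.inl_injective this
    have hrange : range f = k ⁻¹' (range (Sum.inl : A → A ⊕ B)) := by
      ext b
      constructor
      · rintro ⟨a, rfl⟩
        exact ⟨a, (hk1 a).symm⟩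
      · rintro ⟨a, ha⟩
        refine ⟨a, ?_⟩
        have := hk2 b
        rw [← ha] at this
        exact this
    refine ⟨⟨⟨⟨?_⟩, hinj⟩, ?_⟩, ?_⟩
    · -- inducing
      apply le_antisymm
      · exact f.hom.continuous.le_induced
      · intro U hU
        refine ⟨k ⁻¹' (Sum.inl '' U), (isOpenMap_inl U hU).preimage hk, ?_⟩
        ext a
        simp only [mem_preimage, hk1]
        exact Sum.inl_injective.mem_set_image
    · rw [hrange]
      exact isOpen_range_inl.preimage hk
    · rw [hrange]
      exact isClosed_range_inl.preimage hk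
  · rintro ⟨hf, hcl⟩
    rw [llp_iff]
    rintro X Y g ⟨s, hs, hs2⟩ u v hu hv huv
    classical
    let e := hf.isEmbedding.toHomeomorph
    have hop := hf.isOpen_range
    let k : B → X := fun b => if hb : b ∈ range f then u (e.symm ⟨b, hb⟩) else s (v b)
    have hk1 : ∀ a, k (f a) = u a := by
      intro a
      have : (⟨f a, mem_range_self a⟩ : range f) = e a := rfl
      simp only [k, mem_range_self, dif_pos]
      rw [this, e.symm_apply_apply]
    refine ⟨k, ?_, hk1, ?_⟩
    · rw [continuous_iff_continuousAt]
      intro b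
      by_cases hb : b ∈ range f
      · obtain ⟨a, rfl⟩ := hb
        rw [← hf.continuousAt_iff]
        have : (k ∘ f) = u := funext hk1
        rw [this]
        exact hu.continuousAt
      · have : k =ᶠ[𝓝 b] s ∘ v := by
          filter_upwards [hcl.isOpen_compl.mem_nhds hb] with c hc
          simp only [k, Function.comp_apply]
          exact dif_neg hc
        exact ((hs.comp hv).continuousAt).congr this.symm
    · intro b
      by_cases hb : b ∈ range f
      · obtain ⟨a, rfl⟩ := hb
        rw [hk1, huv]
      · simp only [k, dif_neg hb]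
        exact hs2 _

/-- The fold map of the discrete two-point space. -/
lemma fold_Ret : Ret (TopCat.ofHom ⟨toPt D2.{u}, continuous_toPt _⟩) :=
  ⟨fun _ => ⟨false⟩, continuous_const, fun _ => rfl⟩

lemma fold_Quot : Quot (TopCat.ofHom ⟨toPt D2.{u}, continuous_toPt _⟩) := by
  have h1 : IsOpenMap (toPt D2.{u}) := fun _ _ => isOpen_discrete _
  exact h1.isQuotientMap (continuous_toPt _) (fun _ => ⟨⟨false⟩, rfl⟩)

lemma inj_of_fold {A B : TopCat.{u}} {f : A ⟶ B} (h : LP (toPt D2.{u}) f) : Inj f := by
  intro a a' haa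
  classical
  obtain ⟨k, -, hk, -⟩ := h (fun x => if x.down then a else a') (fun _ => f a)
    continuous_of_discreteTopology continuous_const (by
      rintro ⟨x⟩
      cases x
      · exact haa.symm
      · rfl)
  have h1 := hk ⟨true⟩
  have h2 := hk ⟨false⟩
  simp only [toPt, if_true] at h1 h2
  rw [h1] at h2
  simpa using h2

lemma Ret_rlp_eq : Ret.{u}.rlp = Inj := by
  ext A B f
  constructor
  · intro h
    exact inj_of_fold (rlp_test h _ (continuous_toPt _) fold_Ret)
  · intro h
    rw [rlp_iff]
    rintro X Y g ⟨s, hs, hs2⟩ u v hu hv huv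
    refine ⟨u ∘ s, hu.comp hs, fun a => ?_, fun b => ?_⟩
    · apply h
      change f (u (s (g a))) = f (u a)
      rw [huv, huv, hs2]
    · change f (u (s b)) = v b
      rw [huv, hs2]

lemma Sum_llp_eq : Sum.{u}.llp = CD := by
  ext A B f
  constructor
  · intro h U hU hfU
    obtain ⟨k, -, -, hk⟩ := llp_test h (Subtype.val : U → B) continuous_subtype_val
      ⟨hU.isOpen.isOpenEmbedding_subtypeVal, by
        have : range (Subtype.val : U → B) = U := Subtype.range_val
        exact this.symm ▸ hU.isClosed⟩
      (fun a => ⟨f a, hfU (mem_range_self a)⟩) id (by fun_prop) continuous_id (fun a => rfl)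
    ext b
    refine ⟨fun _ => trivial, fun _ => ?_⟩
    have := (k b).2
    rwa [hk b] at this
  · intro h
    rw [llp_iff]
    rintro X Y g ⟨hg, hcl⟩ u v hu hv huv
    have h1 : v ⁻¹' (range g) = univ := by
      apply h
      · exact ⟨hcl.preimage hv, hg.isOpen_range.preimage hv⟩
      · rintro _ ⟨a, rfl⟩
        exact ⟨u a, huv a⟩
    let e := hg.isEmbedding.toHomeomorph
    have h2 : ∀ b, v b ∈ range g := fun b => by
      have : b ∈ v ⁻¹' (range g) := h1 ▸ mem_univ b
      exact this
    have h3 : ∀ b, g (e.symm ⟨v b, h2 b⟩) = v b := fun b =>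
      congrArg Subtype.val (e.apply_symm_apply ⟨v b, h2 b⟩)
    refine ⟨fun b => e.symm ⟨v b, h2 b⟩, e.symm.continuous.comp (by fun_prop), fun a => ?_, h3⟩
    apply hg.injective
    rw [h3, huv]

lemma le_lr (T : MorphismProperty TopCat.{u}) : T ≤ T.llp.rlp :=
  (MorphismProperty.le_llp_iff_le_rlp _ _).1 le_rfl

lemma continuous_elim (B : Type u) [TopologicalSpace B] :
    Continuous (fun x : PEmpty.{u + 1} => (x.elim : B)) := continuous_of_discreteTopology

lemma elim_injective (B : Type u) : Function.Injective (fun x : PEmpty.{u + 1} => (x.elim : B)) :=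
  fun x => x.elim

lemma elim_range (B : Type u) : range (fun x : PEmpty.{u + 1} => (x.elim : B)) = ∅ :=
  range_eq_empty _

lemma elim_isOpenEmbedding (B : Type u) [TopologicalSpace B] :
    IsOpenEmbedding (fun x : PEmpty.{u + 1} => (x.elim : B)) :=
  .of_continuous_injective_isOpenMap (continuous_elim B) (elim_injective B) fun U _ => by
    have : (fun x : PEmpty.{u + 1} => (x.elim : B)) '' U = ∅ := by
      apply subset_empty_iff.1
      rintro _ ⟨x, -, -⟩
      exact x.elim
    rw [this]
    exact isOpen_empty

lemma ret_of_elim {A B : TopCat.{u}} {f : A ⟶ B}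
    (h : LP (fun x : PEmpty.{u + 1} => (x.elim : B)) f) : Ret f := by
  obtain ⟨k, hk, -, hk2⟩ := h (fun x => x.elim) (fun b => b) continuous_of_discreteTopology
    continuous_id (fun x => x.elim)
  exact ⟨k, hk, hk2⟩

lemma Sum_rlp_eq : Sum.{u}.rlp = Ret := by
  apply le_antisymm
  · intro A B f h
    apply ret_of_elim
    refine rlp_test h _ (continuous_elim B) ⟨elim_isOpenEmbedding B, ?_⟩
    change IsClosed (range (fun x : PEmpty.{u + 1} => (x.elim : B)))
    rw [elim_range]
    exact isClosed_empty
  · rw [← Ret_llp_eq]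
    exact le_lr Ret

/-- The test with the inclusion of the image. -/
lemma surj_of_range {A B : TopCat.{u}} {f : A ⟶ B}
    (h : LP f (Subtype.val : range f → B)) : Surj f := by
  obtain ⟨k, -, -, hk⟩ := h (fun a => ⟨f a, mem_range_self a⟩) id (by fun_prop) continuous_id
    (fun a => rfl)
  intro b
  have := (k b).2
  rwa [hk b] at this

lemma Inj_llp_eq : Inj.{u}.llp = Quot := by
  ext A B f
  constructor
  · intro h
    have hs : Surj f := surj_of_range
      (llp_test h (Subtype.val : range f → B) continuous_subtype_val Subtype.val_injective)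
    change IsQuotientMap f
    rw [isQuotientMap_iff]
    refine ⟨.of_isOpen_preimage_iff_isOpen fun V => ⟨fun hV => ?_,
      fun hV => hV.preimage f.hom.continuous⟩, hs⟩
    have ht : TopologicalSpace.coinduced f A.str ≤ B.str :=
      continuous_iff_coinduced_le.1 f.hom.continuous
    have hu : Continuous (fun a => toWt (TopologicalSpace.coinduced f A.str) (f a)) :=
      continuous_coinduced_rng
    obtain ⟨k, hk, -, hk2⟩ := llp_test h (ofWt (TopologicalSpace.coinduced f A.str))
      (continuous_ofWt ht) (fun _ _ h => h) _ id hu continuous_id (fun _ => rfl)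
    have h1 : IsOpen (ofWt (TopologicalSpace.coinduced f A.str) ⁻¹' V) := hV
    have h2 := h1.preimage hk
    have h3 : k ⁻¹' (ofWt (TopologicalSpace.coinduced f A.str) ⁻¹' V) = V := by
      ext b
      rw [mem_preimage, mem_preimage, hk2 b]
      rfl
    rw [h3] at h2
    exact h2
  · intro h
    rw [llp_iff]
    intro X Y g hg u v hu hv huv
    have hs : Function.Surjective f := h.surjective
    have h1 : ∀ a, u (Function.surjInv hs (f a)) = u a := by
      intro a
      apply hg
      rw [huv, huv, Function.surjInv_eq hs]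
    refine ⟨fun b => u (Function.surjInv hs b), ?_, h1, fun b => ?_⟩
    · rw [h.continuous_iff]
      have : (fun b => u (Function.surjInv hs b)) ∘ f = u := funext h1
      rw [this]
      exact hu
    · rw [huv, Function.surjInv_eq hs]

/-- The test with the topology induced by the map. -/
lemma inducing_of_id {A B : TopCat.{u}} {f : A ⟶ B}
    (h : LP (toWt (TopologicalSpace.induced f B.str)) f) :
    IsInducing f := by
  have hv : Continuous (fun x => f (ofWt (TopologicalSpace.induced f B.str) x)) :=
    continuous_induced_dom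
  obtain ⟨k, hk, hk1, -⟩ := h id _ continuous_id hv (fun _ => rfl)
  refine ⟨le_antisymm f.hom.continuous.le_induced ?_⟩
  intro U hU
  have h1 := hU.preimage hk
  have h2 : toWt (TopologicalSpace.induced f B.str) ⁻¹' (k ⁻¹' U) = U := by
    ext a
    rw [mem_preimage, mem_preimage, hk1 a]
    rfl
  have h3 : IsOpen[TopologicalSpace.induced f B.str]
    (toWt (TopologicalSpace.induced f B.str) ⁻¹' (k ⁻¹' U)) := h1
  rw [h2] at h3
  exact h3

lemma continuous_toInduced {A B : TopCat.{u}} (f : A ⟶ B) :
    Continuous (toWt (TopologicalSpace.induced f B.str)) :=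
  continuous_toWt f.hom.continuous.le_induced

lemma Inj_rlp_eq : Inj.{u}.rlp = IS := by
  ext A B f
  constructor
  · intro h
    refine ⟨?_, inducing_of_id (rlp_test h _ (continuous_toInduced f) fun _ _ h => h)⟩
    obtain ⟨s, -, hs⟩ := ret_of_elim (rlp_test h _ (continuous_elim B) (elim_injective B))
    exact fun b => ⟨s b, hs b⟩
  · rintro ⟨h1, h2⟩
    rw [rlp_iff]
    intro X Y g hg u v hu hv huv
    classical
    let k : Y → A := fun y => if hy : ∃ x, g x = y then u hy.choose else Function.surjInv h1 (v y)
    have hk1 : ∀ x, k (g x) = u x := by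
      intro x
      have hy : ∃ x', g x' = g x := ⟨x, rfl⟩
      simp only [k, dif_pos hy]
      rw [hg hy.choose_spec]
    have hk2 : ∀ y, f (k y) = v y := by
      intro y
      by_cases hy : ∃ x, g x = y
      · obtain ⟨x, rfl⟩ := hy
        rw [hk1, huv]
      · simp only [k, dif_neg hy]
        exact Function.surjInv_eq h1 _
    refine ⟨k, ?_, hk1, hk2⟩
    rw [h2.continuous_iff]
    have : f ∘ k = v := funext hk2
    rw [this]
    exact hv

lemma Quot_rlp_eq : Quot.{u}.rlp = Inj := by
  apply le_antisymm
  · intro A B f h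
    exact inj_of_fold (rlp_test h _ (continuous_toPt _) fold_Quot)
  · rw [← Inj_llp_eq]
    exact le_lr Inj

/-- The test with the indiscrete two-point space. -/
lemma inj_of_I2 {A B : TopCat.{u}} {f : A ⟶ B} (h : LP f (toPt I2.{u})) : Inj f := by
  intro a a' haa
  classical
  obtain ⟨k, -, hk, -⟩ := h (fun x => if x = a then i0 else i1) (toPt B) (continuous_I2 _)
    (continuous_toPt _) (fun _ => rfl)
  have h1 := hk a
  have h2 := hk a'
  change f a = f a' at haa
  rw [haa, h2] at h1
  by_contra hne
  rw [if_pos rfl, if_neg (Ne.symm hne)] at h1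
  exact i0_ne_i1 h1.symm

lemma isInducing_toPt_I2 : IsInducing (toPt I2.{u}) := ⟨by
  change (⊤ : TopologicalSpace I2.{u}) = _
  exact (induced_const).symm⟩

lemma surjective_toPt_I2 : Function.Surjective (toPt I2.{u}) := fun _ => ⟨i0, rfl⟩

lemma IS_llp_eq : IS.{u}.llp = Inj := by
  apply le_antisymm
  · intro A B f h
    exact inj_of_I2 (llp_test h _ (continuous_toPt _) ⟨surjective_toPt_I2, isInducing_toPt_I2⟩)
  · rw [← Inj_rlp_eq]
    exact Inj.le_llp_rlp

lemma IS_rlp_eq : IS.{u}.rlp = T0F := by
  ext A B f
  constructor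
  · intro h x y hxy hi
    classical
    have hu : Continuous (fun i : I2.{u} => if i = i0 then x else y) := by
      rw [continuous_def]
      intro U hU
      by_cases hx : x ∈ U
      · have hy : y ∈ U := (hi.mem_open_iff hU).1 hx
        have : (fun i : I2.{u} => if i = i0 then x else y) ⁻¹' U = univ := by
          ext i
          simp only [mem_preimage, mem_univ, iff_true]
          split_ifs <;> assumption
        rw [this]
        exact isOpen_univ
      · have hy : y ∉ U := fun h => hx ((hi.mem_open_iff hU).2 h)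
        have : (fun i : I2.{u} => if i = i0 then x else y) ⁻¹' U = ∅ := by
          ext i
          simp only [mem_preimage, mem_empty_iff_false, iff_false]
          split_ifs <;> assumption
        rw [this]
        exact isOpen_empty
    obtain ⟨k, -, hk, -⟩ := rlp_test h (toPt I2.{u}) (continuous_toPt _)
      ⟨surjective_toPt_I2, isInducing_toPt_I2⟩ _ (fun _ => f x) hu continuous_const (by
        intro i
        split_ifs
        · rfl
        · exact hxy.symm)
    have h1 := hk i0
    have h2 := hk i1
    rw [if_pos rfl] at h1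
    rw [if_neg (Ne.symm i0_ne_i1)] at h2
    exact h1.symm.trans h2
  · intro h
    rw [rlp_iff]
    rintro X Y g ⟨hg1, hg2⟩ u v hu hv huv
    have h1 : ∀ x, u (Function.surjInv hg1 (g x)) = u x := by
      intro x
      apply h
      · rw [huv, huv, Function.surjInv_eq hg1]
      · have : Inseparable (Function.surjInv hg1 (g x)) x := by
          rw [← hg2.inseparable_iff, Function.surjInv_eq hg1]
        exact this.map hu
    refine ⟨fun y => u (Function.surjInv hg1 y), ?_, h1, fun b => ?_⟩
    · rw [continuous_def]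
      intro U hU
      obtain ⟨V, hV, hVU⟩ := hg2.isOpen_iff.1 (hU.preimage hu)
      have : (fun y => u (Function.surjInv hg1 y)) ⁻¹' U = V := by
        ext y
        obtain ⟨x, rfl⟩ := hg1 y
        have h3 : x ∈ g ⁻¹' V ↔ x ∈ u ⁻¹' U := by rw [hVU]
        rw [mem_preimage, h1]
        exact h3.symm
      rw [this]
      exact hV
    · rw [huv, Function.surjInv_eq hg1]

/-- The test with the projection of the product with the Sierpinski space. -/
lemma inducing_of_S {A B : TopCat.{u}} {f : A ⟶ B} (h : LP f (toPt S.{u})) : IsInducing f := by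
  refine ⟨le_antisymm f.hom.continuous.le_induced ?_⟩
  intro U hU
  obtain ⟨k, hk, hk1, -⟩ := h (fun a => ⟨a ∈ U⟩) (toPt B) (continuous_toS.2 hU)
    (continuous_toPt _) (fun _ => rfl)
  have hV : IsOpen {b | (k b).down} := continuous_Prop.1 (continuous_uliftDown.comp hk)
  refine ⟨_, hV, ?_⟩
  ext a
  simp only [mem_preimage, mem_ofPred_eq, hk1]

lemma T0F_of_injective {A B : TopCat.{u}} (f : A ⟶ B) (hf : Function.Injective f) : T0F f :=
  fun _ _ h _ => hf h

lemma toPt_S_T0F : T0F (TopCat.ofHom ⟨toPt S.{u}, continuous_toPt _⟩) := by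
  intro x y _ hxy
  have : T0Space S.{u} := inferInstance
  exact hxy.eq

lemma toPt_D2_T0F : T0F (TopCat.ofHom ⟨toPt D2.{u}, continuous_toPt _⟩) := by
  intro x y _ hxy
  exact hxy.eq

lemma T0F_llp_eq : T0F.{u}.llp = IS := by
  apply le_antisymm
  · intro A B f h
    refine ⟨surj_of_range (llp_test h _ continuous_subtype_val
      (T0F_of_injective _ Subtype.val_injective)), ?_⟩
    exact inducing_of_S (llp_test h _ (continuous_toPt _) toPt_S_T0F)
  · rw [← IS_rlp_eq]
    exact IS.le_llp_rlp

lemma Inj_le_T0F : Inj.{u} ≤ T0F := fun _ _ f hf => T0F_of_injective f hf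

lemma iso_of_IS_Inj {A B : TopCat.{u}} (f : A ⟶ B) (h1 : IS f) (h2 : Inj f) : Iso f :=
  isHomeomorph_iff_isEmbedding_surjective.2 ⟨⟨h1.2, h2⟩, h1.1⟩

lemma T0F_rlp_eq : T0F.{u}.rlp = Iso := by
  apply le_antisymm
  · intro A B f h
    apply iso_of_IS_Inj
    · rw [← Inj_rlp_eq]
      exact MorphismProperty.antitone_rlp Inj_le_T0F f h
    · exact inj_of_fold (rlp_test h _ (continuous_toPt _) toPt_D2_T0F)
  · intro A B f h
    exact iso_rlp f h

end Q178.Orth
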