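import Mathlib

set_option autoImplicit false

/-!
Iterated orthogonals in the category of topological spaces: definitions and basic tools.
-/

universe u

namespace Q178.Orth

open CategoryTheory Set Topology TopologicalSpace

/-- The two letters. -/
inductive Letter
  | l
  | r

/-- The left or the right orthogonal of a class of morphisms. -/
def orth (C : MorphismProperty TopCat.{u}) : Letter → MorphismProperty TopCat.{u}
  | Letter.l => C.llp
  | Letter.r => C.rlp

/-- The iterated orthogonal `C ^ s` for a finite word `s`. -/
def iter (C : MorphismProperty TopCat.{u}) : List Letter → MorphismProperty TopCat.{u}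
  | [] => C
  | x :: s => iter (orth C x) s

/-- The map from the empty space to the one-point space. -/
def emptyToPoint : TopCat.of PEmpty.{u + 1} ⟶ TopCat.of PUnit.{u + 1} :=
  TopCat.ofHom ⟨fun x => x.elim, continuous_of_discreteTopology⟩

/-- The class whose only member is the map from the empty space to the one-point space. -/
def C0 : MorphismProperty TopCat.{u} := MorphismProperty.ofHoms fun _ : Unit => emptyToPoint.{u}

/-- The elementary form of the lifting property. -/
def LP {A B X Y : Type u} [TopologicalSpace A] [TopologicalSpace B] [TopologicalSpace X]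
    [TopologicalSpace Y] (f : A → B) (g : X → Y) : Prop :=
  ∀ (u : A → X) (v : B → Y), Continuous u → Continuous v → (∀ a, g (u a) = v (f a)) →
    ∃ h : B → X, Continuous h ∧ (∀ a, h (f a) = u a) ∧ ∀ b, g (h b) = v b

lemma lp_iff {A B X Y : TopCat.{u}} (f : A ⟶ B) (g : X ⟶ Y) :
    HasLiftingProperty f g ↔ LP f g := by
  constructor
  · intro H u v hu hv huv
    have sq : CommSq (TopCat.ofHom ⟨u, hu⟩) f g (TopCat.ofHom ⟨v, hv⟩) := ⟨by
      ext a
      exact huv a⟩
    have := H.sq_hasLift sq
    refine ⟨sq.lift, sq.lift.hom.continuous, fun a => ?_, fun b => ?_⟩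
    · exact ConcreteCategory.congr_hom sq.fac_left a
    · exact ConcreteCategory.congr_hom sq.fac_right b
  · intro H
    refine ⟨fun {u v} sq => ?_⟩
    obtain ⟨h, hc, h1, h2⟩ := H u v u.hom.continuous v.hom.continuous
      (fun a => ConcreteCategory.congr_hom sq.w a)
    exact ⟨⟨⟨TopCat.ofHom ⟨h, hc⟩, by ext a; exact h1 a, by ext b; exact h2 b⟩⟩⟩

lemma llp_iff {W : MorphismProperty TopCat.{u}} {A B : TopCat.{u}} (f : A ⟶ B) :
    W.llp f ↔ ∀ ⦃X Y : TopCat.{u}⦄ (g : X ⟶ Y), W g → LP f g :=
  ⟨fun h _ _ g hg => (lp_iff f g).1 (h g hg), fun h _ _ g hg => (lp_iff f g).2 (h g hg)⟩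

lemma rlp_iff {W : MorphismProperty TopCat.{u}} {A B : TopCat.{u}} (f : A ⟶ B) :
    W.rlp f ↔ ∀ ⦃X Y : TopCat.{u}⦄ (g : X ⟶ Y), W g → LP g f :=
  ⟨fun h _ _ g hg => (lp_iff g f).1 (h g hg), fun h _ _ g hg => (lp_iff g f).2 (h g hg)⟩

/-- Testing the left lifting property against an unbundled map. -/
lemma llp_test {W : MorphismProperty TopCat.{u}} {A B : TopCat.{u}} {f : A ⟶ B} (hf : W.llp f)
    {X Y : Type u} [TopologicalSpace X] [TopologicalSpace Y] (g : X → Y) (hg : Continuous g)
    (hW : W (TopCat.ofHom ⟨g, hg⟩)) : LP f g :=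
  (llp_iff f).1 hf _ hW

/-- Testing the right lifting property against an unbundled map. -/
lemma rlp_test {W : MorphismProperty TopCat.{u}} {A B : TopCat.{u}} {f : A ⟶ B} (hf : W.rlp f)
    {X Y : Type u} [TopologicalSpace X] [TopologicalSpace Y] (g : X → Y) (hg : Continuous g)
    (hW : W (TopCat.ofHom ⟨g, hg⟩)) : LP g f :=
  (rlp_iff f).1 hf _ hW

/-! ### Test spaces -/

/-- The indiscrete two-point space. -/
def I2 : Type u := ULift.{u} Bool

instance : TopologicalSpace I2.{u} := ⊤

/-- The two points of the indiscrete two-point space. -/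
def i0 : I2.{u} := ⟨false⟩
/-- The two points of the indiscrete two-point space. -/
def i1 : I2.{u} := ⟨true⟩

lemma i0_ne_i1 : i0.{u} ≠ i1 := fun h => absurd (congrArg ULift.down h) (by decide)

/-- The discrete two-point space. -/
abbrev D2 : Type u := ULift.{u} Bool

lemma d0_ne_d1 : (⟨false⟩ : D2.{u}) ≠ ⟨true⟩ :=
  fun h => absurd (congrArg ULift.down h) (by decide)

/-- The Sierpinski space. -/
abbrev S : Type u := ULift.{u} Prop

/-- A set with a given topology. -/
def Wt (X : Type u) (_ : TopologicalSpace X) : Type u := X

instance (X : Type u) (t : TopologicalSpace X) : TopologicalSpace (Wt X t) := t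

/-- The identity map to the set with a new topology. -/
def toWt {X : Type u} (t : TopologicalSpace X) : X → Wt X t := fun x => x

/-- The identity map from the set with a new topology. -/
def ofWt {X : Type u} (t : TopologicalSpace X) : Wt X t → X := fun x => x

lemma continuous_toWt {X : Type u} {t' t : TopologicalSpace X} (h : t' ≤ t) :
    @Continuous X (Wt X t) t' _ (toWt t) := continuous_id_iff_le.2 h

lemma continuous_ofWt {X : Type u} {t' t : TopologicalSpace X} (h : t ≤ t') :
    @Continuous (Wt X t) X _ t' (ofWt t) := continuous_id_iff_le.2 h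

/-- The map to the point. -/
def toPt (X : Type u) : X → PUnit.{u + 1} := fun _ => PUnit.unit

lemma continuous_toPt (X : Type u) [TopologicalSpace X] : Continuous (toPt X) := continuous_const

lemma continuous_I2 {X : Type u} [TopologicalSpace X] (f : X → I2.{u}) : Continuous f :=
  continuous_top

lemma continuous_toS {X : Type u} [TopologicalSpace X] {p : X → Prop} :
    Continuous (fun x => (⟨p x⟩ : S.{u})) ↔ IsOpen {x | p x} := by
  rw [← continuous_Prop]
  constructor
  · intro h
    exact continuous_uliftDown.comp h
  · intro h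
    exact continuous_uliftUp.comp h

/-! ### The classes -/

/-- `A = ∅ → B = ∅`. -/
def NE : MorphismProperty TopCat.{u} := fun A B _ => IsEmpty A → IsEmpty B

/-- Homeomorphisms. -/
def Iso : MorphismProperty TopCat.{u} := fun _ _ f => IsHomeomorph f

/-- Homeomorphisms and maps from the empty space. -/
def E0 : MorphismProperty TopCat.{u} := fun A _ f => IsEmpty A ∨ IsHomeomorph f

/-- Maps with a continuous section. -/
def Ret : MorphismProperty TopCat.{u} := fun A B f =>
  ∃ s : B → A, Continuous s ∧ ∀ b, f (s b) = b

/-- Inclusions of clopen subsets. -/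
def Sum : MorphismProperty TopCat.{u} := fun _ _ f => IsOpenEmbedding f ∧ IsClosed (range f)

/-- Injective maps. -/
def Inj : MorphismProperty TopCat.{u} := fun _ _ f => Function.Injective f

/-- Quotient maps. -/
def Quot : MorphismProperty TopCat.{u} := fun _ _ f => IsQuotientMap f

/-- Surjective maps inducing the topology. -/
def IS : MorphismProperty TopCat.{u} := fun _ _ f => Function.Surjective f ∧ IsInducing f

/-- Maps with `T0` fibres. -/
def T0F : MorphismProperty TopCat.{u} := fun A _ f =>
  ∀ x y : A, f x = f y → Inseparable x y → x = y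

/-- Surjective maps. -/
def Surj : MorphismProperty TopCat.{u} := fun _ _ f => Function.Surjective f

/-- Inclusions of a summand with discrete complement. -/
def DSum : MorphismProperty TopCat.{u} := fun _ _ f =>
  IsOpenEmbedding f ∧ ∀ b, b ∉ range f → IsOpen {b}

/-- Every clopen set which contains the image is everything. -/
def CD : MorphismProperty TopCat.{u} := fun _ B f =>
  ∀ U : Set B, IsClopen U → range f ⊆ U → U = univ

/-- The right orthogonal of `CD`. -/
def CC : MorphismProperty TopCat.{u} := CD.rlp

/-- Maps with a continuous section through generic points of the fibres. -/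
def Gen : MorphismProperty TopCat.{u} := fun A B f =>
  ∃ s : B → A, Continuous s ∧ (∀ b, f (s b) = b) ∧ ∀ a, s (f a) ⤳ a

/-- Closed embeddings. -/
def ClEmb : MorphismProperty TopCat.{u} := fun _ _ f => IsClosedEmbedding f

/-- Maps with dense image. -/
def Dns : MorphismProperty TopCat.{u} := fun _ _ f => DenseRange f

/-- Embeddings. -/
def Emb : MorphismProperty TopCat.{u} := fun _ _ f => IsEmbedding f

/-- The right orthogonal of `Emb`. -/
def RInj : MorphismProperty TopCat.{u} := Emb.rlp

/-- Maps with `T1` fibres. -/
def T1F : MorphismProperty TopCat.{u} := fun A _ f => ∀ x y : A, f x = f y → x ⤳ y → x = y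

/-- The left orthogonal of `T1F`. -/
def W1 : MorphismProperty TopCat.{u} := T1F.llp

/-- All maps. -/
def All : MorphismProperty TopCat.{u} := ⊤

end Q178.Orth
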