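import Pool.Agent.Q178.Orth.Main

set_option autoImplicit false

/-!
Iterated orthogonals in the category of topological spaces: the last transitions.
-/

universe u

namespace Q178.Orth

open CategoryTheory Set Topology TopologicalSpace

/-! ### `Gen` -/

lemma true_specializes (x : S.{u}) : (⟨True⟩ : S.{u}) ⤳ x := by
  obtain ⟨p⟩ := x
  have h : True ⤳ p := by
    by_cases hp : p
    · rw [eq_true hp]
    · rw [eq_false hp, Specializes, nhds_false]
      exact le_top
  exact h.map continuous_uliftUp

lemma true_ne_false : (⟨True⟩ : S.{u}) ≠ ⟨False⟩ := fun h => by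
  have := congrArg ULift.down h
  simp at this

lemma specializes_I2 (x y : I2.{u}) : x ⤳ y := by
  rw [specializes_iff_forall_open]
  intro U hU hy
  rcases (isOpen_top_iff (α := I2.{u}) (U := U)).1 hU with h | h
  · rw [h] at hy
    exact hy.elim
  · rw [h]
    trivial

lemma Gen_toPt_S : Gen (TopCat.ofHom ⟨toPt S.{u}, continuous_toPt _⟩) :=
  ⟨fun _ => ⟨True⟩, continuous_const, fun _ => rfl, fun _ => true_specializes _⟩

lemma Gen_toPt_I2 : Gen (TopCat.ofHom ⟨toPt I2.{u}, continuous_toPt _⟩) :=
  ⟨fun _ => i0, continuous_const, fun _ => rfl, fun _ => specializes_I2 _ _⟩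

lemma Gen_llp_eq : Gen.{u}.llp = ClEmb := by
  apply le_antisymm
  · intro A B f h
    have hinj : Inj f := inj_of_I2 (llp_test h _ (continuous_toPt _) Gen_toPt_I2)
    have hind : IsInducing f := inducing_of_S (llp_test h _ (continuous_toPt _) Gen_toPt_S)
    refine ⟨⟨hind, hinj⟩, ?_⟩
    -- the test space
    let E : Type u := {p : B × S.{u} // p.2.down ∨ p.1 ∈ range f}
    have hc : Continuous (fun p : E => p.1.1) := by fun_prop
    have hs : Continuous (fun b : B => (⟨(b, ⟨True⟩), Or.inl trivial⟩ : E)) := by fun_prop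
    have hu : Continuous (fun a : A => (⟨(f a, ⟨False⟩), Or.inr (mem_range_self a)⟩ : E)) := by
      fun_prop
    obtain ⟨k, hk, hk1, hk2⟩ := llp_test h (fun p : E => p.1.1) hc
      ⟨fun b : B => (⟨(b, ⟨True⟩), Or.inl trivial⟩ : E), hs, fun _ => rfl, by
        rintro ⟨⟨b, s⟩, hbs⟩
        rw [subtype_specializes_iff, specializes_prod]
        exact ⟨specializes_rfl, true_specializes s⟩⟩ _ id hu continuous_id (fun _ => rfl)
    have h1 : IsOpen {b | (k b).1.2.down} := by
      apply continuous_Prop.1
      exact continuous_uliftDown.comp (continuous_snd.comp (continuous_subtype_val.comp hk))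
    rw [← isOpen_compl_iff]
    convert h1 using 1
    ext b
    simp only [mem_compl_iff, mem_ofPred_eq]
    constructor
    · intro hb
      rcases (k b).2 with h2 | h2
      · exact h2
      · have h3 : (k b).1.1 = b := hk2 b
        rw [h3] at h2
        exact (hb h2).elim
    · rintro hb ⟨a, rfl⟩
      rw [hk1 a] at hb
      exact hb
  · rw [← ClEmb_rlp_eq]
    exact ClEmb.le_llp_rlp

lemma T1F_of_S {A B : TopCat.{u}} {f : A ⟶ B} (h : LP (toPt S.{u}) f) : T1F f := by
  intro x y hxy hs
  classical
  have hu : Continuous (fun p : S.{u} => if p.down then x else y) := by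
    rw [continuous_def]
    intro U hU
    by_cases hy : y ∈ U
    · have hx : x ∈ U := specializes_iff_forall_open.1 hs U hU hy
      have : (fun p : S.{u} => if p.down then x else y) ⁻¹' U = univ := by
        ext i
        simp only [mem_preimage, mem_univ, iff_true]
        split_ifs <;> assumption
      rw [this]
      exact isOpen_univ
    · by_cases hx : x ∈ U
      · have : (fun p : S.{u} => if p.down then x else y) ⁻¹' U = {p | p.down} := by
          ext i
          simp only [mem_preimage, mem_ofPred_eq]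
          split_ifs with h
          · simp [hx, h]
          · simp [hy, h]
        rw [this]
        exact continuous_Prop.1 continuous_uliftDown
      · have : (fun p : S.{u} => if p.down then x else y) ⁻¹' U = ∅ := by
          ext i
          simp only [mem_preimage, mem_empty_iff_false, iff_false]
          split_ifs <;> assumption
        rw [this]
        exact isOpen_empty
  obtain ⟨k, -, hk, -⟩ := h _ (fun _ => f x) hu continuous_const (by
    intro p
    split_ifs
    · rfl
    · exact hxy.symm)
  have h1 := hk ⟨True⟩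
  have h2 := hk ⟨False⟩
  rw [if_pos trivial] at h1
  rw [if_neg id] at h2
  exact h1.symm.trans h2

lemma Gen_rlp_eq : Gen.{u}.rlp = T1F := by
  apply le_antisymm
  · intro A B f h
    exact T1F_of_S (rlp_test h _ (continuous_toPt _) Gen_toPt_S)
  · intro A B f h
    rw [rlp_iff]
    rintro X Y g ⟨s, hs, hs1, hs2⟩ u v hu hv huv
    refine ⟨u ∘ s, hu.comp hs, fun x => ?_, fun y => ?_⟩
    · apply h
      · change f (u (s (g x))) = f (u x)
        rw [huv, huv, hs1]
      · exact (hs2 x).map hu
    · change f (u (s y)) = v y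
      rw [huv, hs1]

/-! ### `Emb` and `RInj` -/

lemma Emb_llp_eq : Emb.{u}.llp = Surj := by
  apply le_antisymm
  · intro A B f h
    exact surj_of_range (llp_test h _ continuous_subtype_val IsEmbedding.subtypeVal)
  · rw [← Surj_rlp_eq]
    exact Surj.le_llp_rlp

lemma RInj_toPt_S : RInj (TopCat.ofHom ⟨toPt S.{u}, continuous_toPt _⟩) := by
  rw [RInj, rlp_iff]
  intro X Y g hg u v hu hv huv
  have h1 : IsOpen {x | (u x).down} := continuous_Prop.1 (continuous_uliftDown.comp hu)
  obtain ⟨V, hV, hVU⟩ := (IsEmbedding.isInducing hg).isOpen_iff.1 h1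
  refine ⟨fun y => ⟨y ∈ V⟩, continuous_toS.2 hV, fun x => ?_, fun y => rfl⟩
  apply ULift.ext
  apply propext
  have h2 : x ∈ g ⁻¹' V ↔ x ∈ {x | (u x).down} := by rw [hVU]
  exact h2

lemma RInj_toPt_I2 : RInj (TopCat.ofHom ⟨toPt I2.{u}, continuous_toPt _⟩) := by
  rw [RInj, rlp_iff]
  intro X Y g hg u v hu hv huv
  classical
  refine ⟨fun y => if hy : ∃ x, g x = y then u hy.choose else i0, continuous_I2 _, fun x => ?_,
    fun y => rfl⟩
  have hy : ∃ x', g x' = g x := ⟨x, rfl⟩
  have h1 : (if hy : ∃ x', g x' = g x then u hy.choose else i0) = u hy.choose := dif_pos hy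
  exact h1.trans (congrArg u (IsEmbedding.injective hg hy.choose_spec))

lemma RInj_llp_eq : RInj.{u}.llp = Emb := by
  apply le_antisymm
  · intro A B f h
    exact ⟨inducing_of_S (llp_test h _ (continuous_toPt _) RInj_toPt_S),
      inj_of_I2 (llp_test h _ (continuous_toPt _) RInj_toPt_I2)⟩
  · exact Emb.le_llp_rlp

lemma ClEmb_le_Emb : ClEmb.{u} ≤ Emb := fun _ _ _ h => IsClosedEmbedding.isEmbedding h

lemma RInj_rlp_eq : RInj.{u}.rlp = T1F := by
  apply le_antisymm
  · intro A B f h
    exact T1F_of_S (rlp_test h _ (continuous_toPt _) RInj_toPt_S)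
  · rw [← Gen_rlp_eq]
    apply MorphismProperty.antitone_rlp
    rw [RInj, ← ClEmb_rlp_eq]
    exact MorphismProperty.antitone_rlp ClEmb_le_Emb

/-! ### `T1F` and `W1` -/

lemma Inj_le_T1F : Inj.{u} ≤ T1F := fun _ _ _ hf _ _ h _ => hf h

lemma toPt_D2_T1F : T1F (TopCat.ofHom ⟨toPt D2.{u}, continuous_toPt _⟩) := by
  intro x y _ hxy
  exact hxy.eq

lemma T1F_rlp_eq : T1F.{u}.rlp = Iso := by
  apply le_antisymm
  · intro A B f h
    apply iso_of_IS_Inj
    · rw [← Inj_rlp_eq]
      exact MorphismProperty.antitone_rlp Inj_le_T1F f h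
    · exact inj_of_fold (rlp_test h _ (continuous_toPt _) toPt_D2_T1F)
  · intro A B f h
    exact iso_rlp f h

lemma Gen_le_W1 : Gen.{u} ≤ W1 := by
  rw [W1, ← Gen_rlp_eq]
  exact Gen.le_llp_rlp

lemma W1_rlp_eq : W1.{u}.rlp = T1F := by
  apply le_antisymm
  · rw [← Gen_rlp_eq]
    exact MorphismProperty.antitone_rlp Gen_le_W1
  · exact le_lr T1F

/-! The test space for the left orthogonal of `W1`. -/

section test2

variable {A B : TopCat.{u}} (f : A ⟶ B)

/-- The underlying set of the test space: over each point a centre and a tower. -/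
inductive TW (f : A ⟶ B) : Type u
  | centre (b : B)
  | tower (b : B) (n : ℕ)

/-- The set of the points of `B` over which the tower meets `W`. -/
def towers (W : Set (TW f)) : Set B := {c | ∃ n, TW.tower c n ∈ W}

instance : TopologicalSpace (TW f) where
  IsOpen W := (∀ c n m, n ≤ m → TW.tower c n ∈ W → TW.tower c m ∈ W) ∧
    (∀ b, TW.centre b ∈ W → towers f W ∈ 𝓝 b) ∧
    ∀ b ∈ range f, ∀ n, TW.tower b n ∈ W → TW.centre b ∈ W
  isOpen_univ := by
    refine ⟨fun _ _ _ _ _ => trivial, fun b _ => ?_, fun _ _ _ _ => trivial⟩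
    have : towers f univ = univ := by
      ext c
      exact ⟨fun _ => trivial, fun _ => ⟨0, trivial⟩⟩
    rw [this]
    exact Filter.univ_mem
  isOpen_inter := by
    rintro V W ⟨h1, h2, h3⟩ ⟨h4, h5, h6⟩
    refine ⟨fun c n m hnm h => ⟨h1 c n m hnm h.1, h4 c n m hnm h.2⟩, fun b hb => ?_,
      fun b hb n hn => ⟨h3 b hb n hn.1, h6 b hb n hn.2⟩⟩
    refine Filter.mem_of_superset (Filter.inter_mem (h2 b hb.1) (h5 b hb.2)) ?_
    rintro c ⟨⟨n, hn⟩, ⟨m, hm⟩⟩
    exact ⟨max n m, h1 c n _ (le_max_left _ _) hn, h4 c m _ (le_max_right _ _) hm⟩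
  isOpen_sUnion := by
    intro C hC
    refine ⟨?_, ?_, ?_⟩
    · rintro c n m hnm ⟨W, hW, h⟩
      exact ⟨W, hW, (hC W hW).1 c n m hnm h⟩
    · rintro b ⟨W, hW, h⟩
      refine Filter.mem_of_superset ((hC W hW).2.1 b h) ?_
      rintro c ⟨n, hn⟩
      exact ⟨n, W, hW, hn⟩
    · rintro b hb n ⟨W, hW, h⟩
      exact ⟨W, hW, (hC W hW).2.2 b hb n h⟩

lemma isOpen_TW {W : Set (TW f)} : IsOpen W ↔
    (∀ c n m, n ≤ m → TW.tower c n ∈ W → TW.tower c m ∈ W) ∧
    (∀ b, TW.centre b ∈ W → towers f W ∈ 𝓝 b) ∧
    ∀ b ∈ range f, ∀ n, TW.tower b n ∈ W → TW.centre b ∈ W := Iff.rfl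

/-- The projection. -/
def twProj : TW f → B
  | TW.centre b => b
  | TW.tower b _ => b

lemma continuous_twProj : Continuous (twProj f) := by
  rw [continuous_def]
  intro V hV
  refine (isOpen_TW f).2 ⟨fun c n m _ h => h, fun b hb => ?_, fun b _ n h => h⟩
  refine Filter.mem_of_superset (hV.mem_nhds hb) ?_
  intro c hc
  exact ⟨0, hc⟩

lemma continuous_centre : Continuous (fun a : A => (TW.centre (f a) : TW f)) := by
  rw [continuous_def]
  intro W hW
  rw [isOpen_iff_mem_nhds]
  intro a ha
  have h1 := ((isOpen_TW f).1 hW).2.1 (f a) ha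
  filter_upwards [f.hom.continuous.continuousAt h1] with a' ha'
  obtain ⟨n, hn⟩ := ha'
  exact ((isOpen_TW f).1 hW).2.2 _ (mem_range_self a') n hn

lemma W1_twProj : W1 (TopCat.ofHom ⟨twProj f, continuous_twProj f⟩) := by
  rw [W1, llp_iff]
  intro P Q g hg u v hu hv huv
  have hproj : ∀ z z' : TW f, twProj f z = twProj f z' → g (u z) = g (u z') := by
    intro z z' h
    rw [huv, huv]
    exact congrArg v h
  have h1 : ∀ b n m, n ≤ m → u (TW.tower b m) = u (TW.tower b n) := by
    intro b n m hnm
    apply hg _ _ (hproj (TW.tower b m) (TW.tower b n) rfl)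
    apply Specializes.map _ hu
    rw [specializes_iff_forall_open]
    intro W hW h
    exact ((isOpen_TW f).1 hW).1 b n m hnm h
  have h2 : ∀ b n, u (TW.tower b n) = u (TW.tower b 0) := fun b n => h1 b 0 n (Nat.zero_le n)
  have h3 : ∀ b, u (TW.tower b 0) = u (TW.centre b) := by
    intro b
    apply hg _ _ (hproj (TW.tower b 0) (TW.centre b) rfl)
    rw [specializes_iff_forall_open]
    intro O hO h
    obtain ⟨n, hn⟩ := mem_of_mem_nhds
      (((isOpen_TW f).1 (hO.preimage hu)).2.1 b h)
    rw [← h2 b n]
    exact hn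
  have h4 : ∀ z, u (TW.tower (twProj f z) 0) = u z := by
    rintro (b | ⟨b, n⟩)
    · exact h3 b
    · exact (h2 b n).symm
  refine ⟨fun b => u (TW.tower b 0), ?_, h4, fun b => huv _⟩
  rw [continuous_def]
  intro O hO
  rw [isOpen_iff_mem_nhds]
  intro b hb
  have h5 : u (TW.centre b) ∈ O := by rw [← h3]; exact hb
  refine Filter.mem_of_superset (((isOpen_TW f).1 (hO.preimage hu)).2.1 b h5) ?_
  rintro c ⟨n, hn⟩
  change u (TW.tower c n) ∈ O at hn
  rw [h2] at hn
  exact hn

end test2

lemma W1_llp_le : W1.{u}.llp ≤ DSum := by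
  intro A B f h
  have hcl : IsClosedEmbedding f := by
    have : Gen.{u}.llp f := MorphismProperty.antitone_llp Gen_le_W1 f h
    rw [Gen_llp_eq] at this
    exact this
  obtain ⟨s, hs, hs1, hs2⟩ := llp_test h (twProj f) (continuous_twProj f) (W1_twProj f)
    _ id (continuous_centre f) continuous_id (fun _ => rfl)
  classical
  -- the points which are sent to the towers
  have hcase : ∀ b, s b = TW.centre b ∨ ∃ n, s b = TW.tower b n := by
    intro b
    have h1 := hs2 b
    rcases hsb : s b with c | ⟨c, n⟩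
    · rw [hsb] at h1
      left
      exact congrArg TW.centre h1
    · rw [hsb] at h1
      right
      exact ⟨n, congrArg (fun c => TW.tower c n) h1⟩
  have hchoose : ∀ b, ∃ n, s b = TW.centre b ∨ s b = TW.tower b n := by
    intro b
    rcases hcase b with h | ⟨n, h⟩
    · exact ⟨0, Or.inl h⟩
    · exact ⟨n, Or.inr h⟩
  choose N hN using hchoose
  -- the set of the points which are sent to the centres is open
  have hW0 : IsOpen {z : TW f | ∀ c, z ≠ TW.tower c (N c) ∧ ∀ n, n ≤ N c → z ≠ TW.tower c n} := by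
    refine (isOpen_TW f).2 ⟨?_, ?_, ?_⟩
    · intro c n m hnm hc c'
      have key : ∀ k, k ≤ N c' → (TW.tower c m : TW f) ≠ TW.tower c' k := by
        intro k hk he
        injection he with h1 h2
        subst h1 h2
        exact (hc c).2 n (hnm.trans hk) rfl
      exact ⟨key _ le_rfl, key⟩
    · intro b _
      have : towers f {z : TW f | ∀ c, z ≠ TW.tower c (N c) ∧
          ∀ n, n ≤ N c → z ≠ TW.tower c n} = univ := by
        ext c
        refine ⟨fun _ => trivial, fun _ => ⟨N c + 1, ?_⟩⟩
        intro c'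
        have key : ∀ k, k ≤ N c' → (TW.tower c (N c + 1) : TW f) ≠ TW.tower c' k := by
          intro k hk he
          injection he with h1 h2
          subst h1 h2
          omega
        exact ⟨key _ le_rfl, key⟩
      rw [this]
      exact Filter.univ_mem
    · intro b _ n _ c
      exact ⟨by simp, fun n _ => by simp⟩
  have hD : IsOpen {b | s b = TW.centre b} := by
    convert hW0.preimage hs using 1
    ext b
    simp only [mem_ofPred_eq, mem_preimage]
    constructor
    · intro hb c
      rw [hb]
      exact ⟨by simp, fun n _ => by simp⟩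
    · intro hb
      rcases hN b with h1 | h1
      · exact h1
      · exact ((hb b).1 h1).elim
  -- isolated points
  have hiso : ∀ b, b ∉ range f → IsOpen {b} := by
    intro b hb
    rcases hN b with h1 | h1
    · have hW1 : IsOpen {z : TW f | z = TW.centre b ∨ ∃ c n, c ∉ range f ∧ z = TW.tower c n} := by
        refine (isOpen_TW f).2 ⟨?_, ?_, ?_⟩
        · rintro c n m hnm (h2 | ⟨c', n', h2, h3⟩)
          · exact absurd h2 (by simp)
          · injection h3 with h3 h4
            subst h3
            exact Or.inr ⟨c, m, h2, rfl⟩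
        · intro b' hb'
          have hbb : b' = b := by
            rcases hb' with h2 | ⟨c', n', h2, h3⟩
            · injection h2
            · exact absurd h3 (by simp)
          have h2 : towers f {z : TW f | z = TW.centre b ∨
              ∃ c n, c ∉ range f ∧ z = TW.tower c n} = (range f)ᶜ := by
            ext c
            constructor
            · rintro ⟨n, h2 | ⟨c', n', h2, h3⟩⟩
              · exact absurd h2 (by simp)
              · injection h3 with h3 h4
                subst h3
                exact h2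
            · intro hc
              exact ⟨0, Or.inr ⟨c, 0, hc, rfl⟩⟩
          rw [h2, hbb]
          exact hcl.isClosed_range.isOpen_compl.mem_nhds hb
        · rintro b' hb' n (h2 | ⟨c', n', h2, h3⟩)
          · exact absurd h2 (by simp)
          · injection h3 with h3 h4
            subst h3
            exact (h2 hb').elim
      have h2 := (hW1.preimage hs).inter hD
      convert h2 using 1
      ext c
      simp only [mem_singleton_iff, mem_inter_iff, mem_preimage, mem_ofPred_eq]
      constructor
      · rintro rfl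
        exact ⟨Or.inl h1, h1⟩
      · rintro ⟨h3 | ⟨c', n', h3, h4⟩, h5⟩
        · rw [h5] at h3
          injection h3
        · rw [h5] at h4
          exact absurd h4 (by simp)
    · have hW2 : IsOpen {z : TW f | ∃ n, z = TW.tower b n} := by
        refine (isOpen_TW f).2 ⟨?_, ?_, ?_⟩
        · rintro c n m hnm ⟨n', h3⟩
          injection h3 with h3 h4
          subst h3
          exact ⟨m, rfl⟩
        · rintro b' ⟨n, h3⟩
          exact absurd h3 (by simp)
        · rintro b' hb' n ⟨n', h3⟩
          injection h3 with h3 h4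
          subst h3
          exact (hb hb').elim
      convert hW2.preimage hs using 1
      ext c
      simp only [mem_singleton_iff, mem_preimage, mem_ofPred_eq]
      constructor
      · rintro rfl
        exact ⟨_, h1⟩
      · rintro ⟨n, h3⟩
        rcases hcase c with h4 | ⟨m, h4⟩
        · rw [h4] at h3
          exact absurd h3 (by simp)
        · rw [h4] at h3
          injection h3
  -- the image is open
  have hrange : IsOpen (range f) := by
    have hW3 : IsOpen {z : TW f | ∀ b, b ∉ range f → z ≠ TW.centre b} := by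
      refine (isOpen_TW f).2 ⟨?_, ?_, ?_⟩
      · intro c n m _ _ b _
        simp
      · intro b _
        have : towers f {z : TW f | ∀ b, b ∉ range f → z ≠ TW.centre b} = univ := by
          ext c
          refine ⟨fun _ => trivial, fun _ => ⟨0, ?_⟩⟩
          intro b _
          simp
        rw [this]
        exact Filter.univ_mem
      · intro b hb n _ b' hb' he
        injection he with he
        subst he
        exact hb' hb
    have h2 := (hW3.preimage hs).inter hD
    convert h2 using 1
    ext c
    constructor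
    · rintro ⟨a, rfl⟩
      refine ⟨?_, hs1 a⟩
      intro b hb he
      rw [hs1] at he
      injection he with he
      exact hb ⟨a, he⟩
    · rintro ⟨h3, h4⟩
      by_contra hc
      exact h3 c hc h4
  exact ⟨⟨hcl.isEmbedding, hrange⟩, hiso⟩

lemma Quot_llp_le_W1_llp : Quot.{u}.llp ≤ W1.llp := by
  apply MorphismProperty.antitone_llp
  rw [W1, ← Inj_llp_eq]
  exact MorphismProperty.antitone_llp Inj_le_T1F

lemma Surj_llp_le_Quot_llp : Surj.{u}.llp ≤ Quot.llp :=
  MorphismProperty.antitone_llp Quot_le_Surj

lemma W1_llp_eq : W1.{u}.llp = DSum :=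
  le_antisymm W1_llp_le
    (DSum_le_Surj_llp.trans (Surj_llp_le_Quot_llp.trans Quot_llp_le_W1_llp))

lemma Quot_llp_eq : Quot.{u}.llp = DSum :=
  le_antisymm (Quot_llp_le_W1_llp.trans W1_llp_le)
    (DSum_le_Surj_llp.trans Surj_llp_le_Quot_llp)

lemma Surj_llp_eq : Surj.{u}.llp = DSum :=
  le_antisymm (Surj_llp_le_Quot_llp.trans (Quot_llp_le_W1_llp.trans W1_llp_le))
    DSum_le_Surj_llp

lemma Surj_llp_le : Surj.{u}.llp ≤ DSum := Surj_llp_eq.le

lemma DSum_rlp_eq : DSum.{u}.rlp = Surj := by
  apply le_antisymm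
  · intro A B f h
    rw [← C0_rlp_eq, rlp_iff]
    rintro X Y g ⟨_⟩
    refine rlp_test h _ (emptyToPoint.{u}).hom.continuous ?_
    exact ⟨.of_continuous_injective_isOpenMap (emptyToPoint.{u}).hom.continuous
      (fun x => x.elim) (fun U _ => isOpen_discrete _), fun _ _ => isOpen_discrete _⟩
  · rw [← Surj_llp_eq]
    exact le_lr Surj

lemma CD_llp_eq : CD.{u}.llp = Iso := by
  apply le_antisymm
  · intro A B f h
    apply iso_of_DSum_Surj
    · have h1 : Surj.{u}.llp f :=
        MorphismProperty.antitone_llp (Surj_le_Dns.trans Dns_le_CD) f h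
      exact Surj_llp_le f h1
    · exact surj_of_point (llp_test h _ continuous_const (Dns_le_CD _ Dns_point))
  · exact fun _ _ f h => iso_llp f h

lemma Dns_llp_eq : Dns.{u}.llp = Iso := by
  apply le_antisymm
  · intro A B f h
    apply iso_of_DSum_Surj
    · have h1 : Surj.{u}.llp f :=
        MorphismProperty.antitone_llp Surj_le_Dns f h
      exact Surj_llp_le f h1
    · exact surj_of_point (llp_test h _ continuous_const Dns_point)
  · exact fun _ _ f h => iso_llp f h

/-! ### The list of the classes -/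

/-- The names of the classes. -/
inductive Name
  | C0 | NE | Iso | E0 | Ret | Sum | Inj | Quot | IS | T0F | Surj | DSum | CD | CC | Gen | ClEmb
  | Dns | Emb | RInj | T1F | W1 | All
  deriving DecidableEq

instance : Fintype Name where
  elems := {.C0, .NE, .Iso, .E0, .Ret, .Sum, .Inj, .Quot, .IS, .T0F, .Surj, .DSum, .CD, .CC, .Gen,
    .ClEmb, .Dns, .Emb, .RInj, .T1F, .W1, .All}
  complete x := by cases x <;> decide

/-- The classes. -/
def cls : Name → MorphismProperty TopCat.{u}
  | .C0 => C0
  | .NE => NE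
  | .Iso => Iso
  | .E0 => E0
  | .Ret => Ret
  | .Sum => Sum
  | .Inj => Inj
  | .Quot => Quot
  | .IS => IS
  | .T0F => T0F
  | .Surj => Surj
  | .DSum => DSum
  | .CD => CD
  | .CC => CC
  | .Gen => Gen
  | .ClEmb => ClEmb
  | .Dns => Dns
  | .Emb => Emb
  | .RInj => RInj
  | .T1F => T1F
  | .W1 => W1
  | .All => All

/-- The table of the left orthogonals. -/
def tl : Name → Name
  | .C0 => .NE
  | .NE => .Iso
  | .Iso => .All
  | .E0 => .NE
  | .Ret => .Sum
  | .Sum => .CD
  | .Inj => .Quot
  | .Quot => .DSum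
  | .IS => .Inj
  | .T0F => .IS
  | .Surj => .DSum
  | .DSum => .CD
  | .CD => .Iso
  | .CC => .CD
  | .Gen => .ClEmb
  | .ClEmb => .Dns
  | .Dns => .Iso
  | .Emb => .Surj
  | .RInj => .Emb
  | .T1F => .W1
  | .W1 => .DSum
  | .All => .Iso

/-- The table of the right orthogonals. -/
def tr : Name → Name
  | .C0 => .Surj
  | .NE => .E0
  | .Iso => .All
  | .E0 => .Ret
  | .Ret => .Inj
  | .Sum => .Ret
  | .Inj => .IS
  | .Quot => .Inj
  | .IS => .T0F
  | .T0F => .Iso
  | .Surj => .Emb
  | .DSum => .Surj
  | .CD => .CC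
  | .CC => .Gen
  | .Gen => .T1F
  | .ClEmb => .Gen
  | .Dns => .ClEmb
  | .Emb => .RInj
  | .RInj => .T1F
  | .T1F => .Iso
  | .W1 => .T1F
  | .All => .Iso

lemma cls_llp (n : Name) : (cls.{u} n).llp = cls (tl n) := by
  cases n
  · exact C0_llp_eq
  · exact NE_llp_eq
  · exact iso_llp_eq
  · exact E0_llp_eq
  · exact Ret_llp_eq
  · exact Sum_llp_eq
  · exact Inj_llp_eq
  · exact Quot_llp_eq
  · exact IS_llp_eq
  · exact T0F_llp_eq
  · exact Surj_llp_eq
  · exact DSum_llp_eq
  · exact CD_llp_eq
  · exact CC_llp_eq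
  · exact Gen_llp_eq
  · exact ClEmb_llp_eq
  · exact Dns_llp_eq
  · exact Emb_llp_eq
  · exact RInj_llp_eq
  · rfl
  · exact W1_llp_eq
  · exact all_llp_eq

lemma cls_rlp (n : Name) : (cls.{u} n).rlp = cls (tr n) := by
  cases n
  · exact C0_rlp_eq
  · exact NE_rlp_eq
  · exact iso_rlp_eq
  · exact E0_rlp_eq
  · exact Ret_rlp_eq
  · exact Sum_rlp_eq
  · exact Inj_rlp_eq
  · exact Quot_rlp_eq
  · exact IS_rlp_eq
  · exact T0F_rlp_eq
  · exact Surj_rlp_eq
  · exact DSum_rlp_eq
  · rfl
  · exact CC_rlp_eq
  · exact Gen_rlp_eq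
  · exact ClEmb_rlp_eq
  · exact Dns_rlp_eq
  · rfl
  · exact RInj_rlp_eq
  · exact T1F_rlp_eq
  · exact W1_rlp_eq
  · exact all_rlp_eq

lemma iter_mem (s : List Letter) : ∀ n : Name, ∃ m : Name, iter (cls.{u} n) s = cls m := by
  induction s with
  | nil => exact fun n => ⟨n, rfl⟩
  | cons x s ih =>
    intro n
    cases x
    · obtain ⟨m, hm⟩ := ih (tl n)
      refine ⟨m, ?_⟩
      change iter ((cls.{u} n).llp) s = _
      rw [cls_llp, hm]
    · obtain ⟨m, hm⟩ := ih (tr n)
      refine ⟨m, ?_⟩
      change iter ((cls.{u} n).rlp) s = _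
      rw [cls_rlp, hm]

/-- The iterated orthogonals of the map from the empty space to the point are among the classes
of the list. -/
lemma range_iter_subset : range (iter C0.{u}) ⊆ range cls.{u} := by
  rintro _ ⟨s, rfl⟩
  obtain ⟨m, hm⟩ := iter_mem s Name.C0
  exact ⟨m, hm.symm⟩

lemma range_iter_finite : (range (iter C0.{u})).Finite :=
  (finite_range cls.{u}).subset range_iter_subset

lemma card_name : Fintype.card Name = 22 := by decide

lemma ncard_range_iter : (range (iter C0.{u})).ncard ≤ 22 := by
  calc (range (iter C0.{u})).ncard ≤ (range cls.{u}).ncard :=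
        ncard_le_ncard range_iter_subset (finite_range _)
    _ ≤ Nat.card Name := by
        rw [← Set.image_univ]
        refine (ncard_image_le (finite_univ)).trans ?_
        rw [ncard_univ]
    _ = 22 := by rw [Nat.card_eq_fintype_card, card_name]

end Q178.Orth
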