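import Pool.Agent.Q178.Orth.Basic

set_option autoImplicit false

/-!
Iterated orthogonals in the category of topological spaces: the remaining transitions.
-/

universe u

namespace Q178.Orth

open CategoryTheory Set Topology TopologicalSpace

/-! ### `Surj` and `DSum` -/

lemma DSum_le_Sum : DSum.{u} ≤ Sum := by
  rintro A B f ⟨h1, h2⟩
  refine ⟨h1, ?_⟩
  rw [← isOpen_compl_iff, ← biUnion_of_singleton (range f)ᶜ]
  exact isOpen_biUnion h2

lemma Quot_le_Surj : Quot.{u} ≤ Surj := fun _ _ _ h => IsQuotientMap.surjective h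

lemma DSum_le_Surj_llp : DSum.{u} ≤ Surj.llp := by
  rintro A B f ⟨hf, hd⟩
  rw [llp_iff]
  intro X Y g hs u v hu hv huv
  classical
  let e := hf.isEmbedding.toHomeomorph
  let k : B → X := fun b => if hb : b ∈ range f then u (e.symm ⟨b, hb⟩) else
    Function.surjInv hs (v b)
  have hk1 : ∀ a, k (f a) = u a := by
    intro a
    have : (⟨f a, mem_range_self a⟩ : range f) = e a := rfl
    simp only [k, mem_range_self, dif_pos]
    rw [this, e.symm_apply_apply]
  refine ⟨k, ?_, hk1, ?_⟩
  · rw [continuous_iff_continuousAt]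
    intro b
    by_cases hb : b ∈ range f
    · obtain ⟨a, rfl⟩ := hb
      rw [← hf.continuousAt_iff]
      have : (k ∘ f) = u := funext hk1
      rw [this]
      exact hu.continuousAt
    · have h1 : 𝓝 b = pure b := (isOpen_singleton_iff_nhds_eq_pure b).1 (hd b hb)
      rw [ContinuousAt, h1]
      exact (Filter.tendsto_pure_pure k b).mono_right (pure_le_nhds _)
  · intro b
    by_cases hb : b ∈ range f
    · obtain ⟨a, rfl⟩ := hb
      rw [hk1, huv]
    · simp only [k, dif_neg hb]
      exact Function.surjInv_eq hs _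

lemma Surj_rlp_eq : Surj.{u}.rlp = Emb := by
  ext A B f
  constructor
  · intro h
    refine ⟨inducing_of_id (rlp_test h _ (continuous_toInduced f) fun x => ⟨x, rfl⟩), ?_⟩
    exact inj_of_fold (rlp_test h _ (continuous_toPt _) fun _ => ⟨⟨true⟩, rfl⟩)
  · intro h
    rw [rlp_iff]
    intro X Y g hs u v hu hv huv
    have h1 : ∀ x, u (Function.surjInv hs (g x)) = u x := by
      intro x
      apply h.injective
      rw [huv, huv, Function.surjInv_eq hs]
    have h2 : ∀ y, f (u (Function.surjInv hs y)) = v y := by
      intro y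
      rw [huv, Function.surjInv_eq hs]
    refine ⟨fun y => u (Function.surjInv hs y), ?_, h1, h2⟩
    rw [h.isInducing.continuous_iff]
    have : f ∘ (fun y => u (Function.surjInv hs y)) = v := funext h2
    rw [this]
    exact hv

/-- The test with the inclusion of a point in the discrete two-point space. -/
lemma CD_of_point {A B : TopCat.{u}} {f : A ⟶ B}
    (h : LP f (fun _ : PUnit.{u + 1} => (⟨true⟩ : D2.{u}))) : CD f := by
  intro U hU hfU
  obtain ⟨k, -, -, hk⟩ := h (fun _ => PUnit.unit) (fun b => ⟨U.boolIndicator b⟩)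
    continuous_const
    (continuous_uliftUp.comp ((continuous_boolIndicator_iff_isClopen U).2 hU))
    (fun a => by
      have : U.boolIndicator (f a) = true :=
        (mem_iff_boolIndicator U _).1 (hfU (mem_range_self a))
      rw [this])
  ext b
  refine ⟨fun _ => trivial, fun _ => ?_⟩
  rw [mem_iff_boolIndicator]
  exact (congrArg ULift.down (hk b)).symm

lemma point_DSum : DSum (TopCat.ofHom
    ⟨fun _ : PUnit.{u + 1} => (⟨true⟩ : D2.{u}), continuous_const⟩) := by
  refine ⟨?_, fun b _ => isOpen_discrete _⟩
  exact .of_continuous_injective_isOpenMap continuous_const (fun _ _ _ => rfl)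
    fun _ _ => isOpen_discrete _

lemma DSum_llp_eq : DSum.{u}.llp = CD := by
  apply le_antisymm
  · intro A B f h
    exact CD_of_point (llp_test h _ continuous_const point_DSum)
  · rw [← Sum_llp_eq]
    exact MorphismProperty.antitone_llp DSum_le_Sum

/-! ### `CD` and `Dns` -/

lemma Surj_le_Dns : Surj.{u} ≤ Dns := fun _ _ _ h => Function.Surjective.denseRange h

lemma Dns_le_CD : Dns.{u} ≤ CD := by
  intro A B f h U hU hfU
  exact (IsClosed.closure_eq hU.isClosed).symm.trans (h.mono hfU).closure_eq

lemma iso_of_DSum_Surj {A B : TopCat.{u}} (f : A ⟶ B) (h1 : DSum f) (h2 : Surj f) : Iso f :=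
  isHomeomorph_iff_isEmbedding_surjective.2 ⟨h1.1.isEmbedding, h2⟩

/-- The test with the inclusion of a point in the indiscrete two-point space. -/
lemma surj_of_point {A B : TopCat.{u}} {f : A ⟶ B}
    (h : LP f (fun _ : PUnit.{u + 1} => i0.{u})) : Surj f := by
  classical
  obtain ⟨k, -, -, hk⟩ := h (fun _ => PUnit.unit) (fun b => if b ∈ range f then i0 else i1)
    continuous_const (continuous_I2 _) (fun a => by rw [if_pos (mem_range_self a)])
  intro b
  by_contra hb
  change b ∉ range f at hb
  have := hk b
  rw [if_neg hb] at this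
  exact i0_ne_i1 this

lemma Dns_point : Dns (TopCat.ofHom ⟨fun _ : PUnit.{u + 1} => i0.{u}, continuous_const⟩) := by
  intro x
  rw [mem_closure_iff]
  intro U hU hx
  have : U = univ := by
    rcases (isOpen_top_iff (α := I2.{u}) (U := U)).1 hU with h | h
    · rw [h] at hx
      exact hx.elim
    · exact h
  exact ⟨i0, this ▸ mem_univ _, PUnit.unit, rfl⟩

lemma ClEmb_llp_eq : ClEmb.{u}.llp = Dns := by
  apply le_antisymm
  · intro A B f h
    have h1 : ∀ a, f a ∈ closure (range f) := fun a => subset_closure (mem_range_self a)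
    obtain ⟨k, -, -, hk⟩ := llp_test h (Subtype.val : closure (range f) → B)
      continuous_subtype_val (isClosed_closure.isClosedEmbedding_subtypeVal)
      (fun a => ⟨f a, h1 a⟩) id (by fun_prop) continuous_id (fun a => rfl)
    intro b
    have := (k b).2
    rwa [hk b] at this
  · intro A B f h
    rw [llp_iff]
    intro X Y g hg u v hu hv huv
    have hgc : IsClosedEmbedding g := hg
    have h1 : v ⁻¹' (range g) = univ := by
      rw [← (hgc.isClosed_range.preimage hv).closure_eq]
      apply Dense.closure_eq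
      apply h.mono
      rintro _ ⟨a, rfl⟩
      exact ⟨u a, huv a⟩
    let e := hgc.isEmbedding.toHomeomorph
    have h2 : ∀ b, v b ∈ range g := fun b => by
      have : b ∈ v ⁻¹' (range g) := h1 ▸ mem_univ b
      exact this
    have h3 : ∀ b, g (e.symm ⟨v b, h2 b⟩) = v b := fun b =>
      congrArg Subtype.val (e.apply_symm_apply ⟨v b, h2 b⟩)
    refine ⟨fun b => e.symm ⟨v b, h2 b⟩, e.symm.continuous.comp (by fun_prop), fun a => ?_, h3⟩
    apply hgc.injective
    rw [h3, huv]

lemma Dns_rlp_eq : Dns.{u}.rlp = ClEmb := by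
  apply le_antisymm
  · intro A B f h
    have h1 : Emb f := by
      rw [← Surj_rlp_eq]
      exact MorphismProperty.antitone_rlp Surj_le_Dns f h
    refine ⟨h1, ?_⟩
    have h2 : ∀ a, f a ∈ closure (range f) := fun a => subset_closure (mem_range_self a)
    have hc : Continuous (fun a => (⟨f a, h2 a⟩ : closure (range f))) := by fun_prop
    have hd : DenseRange (fun a => (⟨f a, h2 a⟩ : closure (range f))) := by
      intro x
      rw [closure_subtype]
      have : Subtype.val '' range (fun a => (⟨f a, h2 a⟩ : closure (range f))) = range f := by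
        rw [← range_comp]
        rfl
      rw [this]
      exact x.2
    obtain ⟨k, -, -, hk⟩ := rlp_test h _ hc hd id Subtype.val continuous_id
      continuous_subtype_val (fun _ => rfl)
    apply isClosed_of_closure_subset
    intro b hb
    exact ⟨k ⟨b, hb⟩, hk ⟨b, hb⟩⟩
  · rw [← ClEmb_llp_eq]
    exact le_lr ClEmb

/-! ### `CC` and `Gen` -/

lemma CC_llp_eq : CC.{u}.llp = CD := by
  apply le_antisymm
  · rw [← Sum_llp_eq]
    apply MorphismProperty.antitone_llp
    rw [CC, ← Sum_llp_eq]
    exact le_lr Sum
  · exact CD.le_llp_rlp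

lemma CC_le_ClEmb : CC.{u} ≤ ClEmb := by
  rw [← Dns_rlp_eq]
  exact MorphismProperty.antitone_rlp Dns_le_CD

lemma Gen_le_ClEmb_rlp : Gen.{u} ≤ ClEmb.rlp := by
  rintro A B f ⟨s, hs, hs1, hs2⟩
  rw [rlp_iff]
  intro X Y g hg u v hu hv huv
  have hgc : IsClosedEmbedding g := hg
  classical
  let e := hgc.isEmbedding.toHomeomorph
  let k : Y → A := fun y => if hy : y ∈ range g then u (e.symm ⟨y, hy⟩) else s (v y)
  have hk1 : ∀ x, k (g x) = u x := by
    intro a
    have : (⟨g a, mem_range_self a⟩ : range g) = e a := rfl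
    simp only [k, mem_range_self, dif_pos]
    rw [this, e.symm_apply_apply]
  refine ⟨k, ?_, hk1, ?_⟩
  · rw [continuous_iff_continuousAt]
    intro y
    by_cases hy : y ∈ range g
    · obtain ⟨x, rfl⟩ := hy
      intro W hW
      rw [hk1] at hW
      obtain ⟨U, hUW, hU, hxU⟩ := mem_nhds_iff.1 hW
      rw [Filter.mem_map]
      obtain ⟨O, hO, hOU⟩ := hgc.isInducing.isOpen_iff.1 (hU.preimage hu)
      have h1 : g x ∈ O := by
        have : x ∈ g ⁻¹' O := by rw [hOU]; exact hxU
        exact this
      have h2 : g x ∈ (s ∘ v) ⁻¹' U := by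
        have := specializes_iff_forall_open.1 (hs2 (u x)) U hU hxU
        rw [huv] at this
        exact this
      filter_upwards [hO.mem_nhds h1, (hU.preimage (hs.comp hv)).mem_nhds h2] with z hz1 hz2
      apply hUW
      by_cases hz : z ∈ range g
      · obtain ⟨w, rfl⟩ := hz
        rw [hk1]
        have : w ∈ u ⁻¹' U := by rw [← hOU]; exact hz1
        exact this
      · simp only [k, dif_neg hz]
        exact hz2
    · have : k =ᶠ[𝓝 y] s ∘ v := by
        filter_upwards [hgc.isClosed_range.isOpen_compl.mem_nhds hy] with c hc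
        simp only [k, Function.comp_apply]
        exact dif_neg hc
      exact ((hs.comp hv).continuousAt).congr this.symm
  · intro y
    by_cases hy : y ∈ range g
    · obtain ⟨x, rfl⟩ := hy
      rw [hk1, huv]
    · simp only [k, dif_neg hy]
      exact hs1 _

/-! The test space for `CC.rlp`: many copies of the target converging to the source. -/

section test

variable {A B : TopCat.{u}} (f : A ⟶ B) (K : Type u)

/-- The underlying set of the test space. -/
inductive TS (f : A ⟶ B) (K : Type u) : Type u
  | base (a : A)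
  | copy (b : B) (k : K)

instance : TopologicalSpace (TS f K) where
  IsOpen W := IsOpen {a : A | TS.base a ∈ W} ∧
    (∀ k : K, IsOpen {b : B | TS.copy b k ∈ W}) ∧
    ∀ a : A, TS.base a ∈ W → {k : K | TS.copy (f a) k ∉ W}.Finite
  isOpen_univ := by
    refine ⟨by simp, fun k => by simp, fun a _ => by simp⟩
  isOpen_inter := by
    rintro V W ⟨h1, h2, h3⟩ ⟨h4, h5, h6⟩
    refine ⟨h1.inter h4, fun k => (h2 k).inter (h5 k), fun a ha => ?_⟩
    refine ((h3 a ha.1).union (h6 a ha.2)).subset ?_
    intro k hk
    by_contra hn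
    simp only [mem_union, mem_ofPred_eq, not_or, not_not] at hn
    exact hk hn
  isOpen_sUnion := by
    intro C hC
    refine ⟨?_, fun k => ?_, fun a ha => ?_⟩
    · have : {a : A | TS.base a ∈ ⋃₀ C} = ⋃ W ∈ C, {a : A | TS.base a ∈ W} := by
        ext a
        simp
      rw [this]
      exact isOpen_biUnion fun W hW => (hC W hW).1
    · have : {b : B | TS.copy b k ∈ ⋃₀ C} = ⋃ W ∈ C, {b : B | TS.copy b k ∈ W} := by
        ext a
        simp
      rw [this]
      exact isOpen_biUnion fun W hW => (hC W hW).2.1 k
    · obtain ⟨W, hW, haW⟩ := ha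
      refine ((hC W hW).2.2 a haW).subset ?_
      intro k hk hn
      exact hk ⟨W, hW, hn⟩

lemma isOpen_TS {W : Set (TS f K)} : IsOpen W ↔ IsOpen {a : A | TS.base a ∈ W} ∧
    (∀ k : K, IsOpen {b : B | TS.copy b k ∈ W}) ∧
    ∀ a : A, TS.base a ∈ W → {k : K | TS.copy (f a) k ∉ W}.Finite := Iff.rfl

lemma continuous_base : Continuous (TS.base : A → TS f K) := by
  rw [continuous_def]
  intro W hW
  exact ((isOpen_TS f K).1 hW).1

lemma isInducing_base : IsInducing (TS.base : A → TS f K) := by
  refine ⟨le_antisymm (continuous_base f K).le_induced ?_⟩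
  intro U hU
  refine ⟨{z | ∀ a, z = TS.base a → a ∈ U}, ?_, ?_⟩
  · refine (isOpen_TS f K).2 ⟨?_, fun k => ?_, fun a _ => ?_⟩
    · have : {a : A | TS.base a ∈ {z : TS f K | ∀ a, z = TS.base a → a ∈ U}} = U := by
        ext a
        constructor
        · intro h
          exact h a rfl
        · intro h a' ha
          injection ha with ha
          rwa [← ha]
      rw [this]
      exact hU
    · have : {b : B | TS.copy b k ∈ {z : TS f K | ∀ a, z = TS.base a → a ∈ U}} = univ := by
        ext b
        simp
      rw [this]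
      exact isOpen_univ
    · have : {k : K | TS.copy (f a) k ∉ {z : TS f K | ∀ a, z = TS.base a → a ∈ U}} = ∅ := by
        ext b
        simp
      rw [this]
      exact finite_empty
  · ext a
    constructor
    · intro h
      exact h a rfl
    · intro h a' ha
      injection ha with ha
      rwa [← ha]

/-- The projection of the test space. -/
def tsProj : TS f K → B
  | TS.base a => f a
  | TS.copy b _ => b

lemma continuous_tsProj : Continuous (tsProj f K) := by
  rw [continuous_def]
  intro V hV
  refine (isOpen_TS f K).2 ⟨hV.preimage f.hom.continuous, fun k => hV, fun a ha => ?_⟩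
  have : {k : K | TS.copy (f a) k ∉ tsProj f K ⁻¹' V} = ∅ := by
    ext k
    simp only [mem_ofPred_eq, mem_empty_iff_false, iff_false, not_not]
    exact ha
  rw [this]
  exact finite_empty

/-- The copies are clopen. -/
lemma isClopen_compl_copy (k : K) :
    IsClopen {z : TS f K | ∀ b : B, z ≠ TS.copy b k} := by
  classical
  constructor
  · rw [← isOpen_compl_iff]
    refine (isOpen_TS f K).2 ⟨?_, fun k' => ?_, fun a ha => ?_⟩
    · have : {a : A | TS.base a ∈ {z : TS f K | ∀ b : B, z ≠ TS.copy b k}ᶜ} = ∅ := by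
        ext a
        simp
      rw [this]
      exact isOpen_empty
    · by_cases hk : k' = k
      · have : {b : B | TS.copy b k' ∈ {z : TS f K | ∀ b : B, z ≠ TS.copy b k}ᶜ} = univ := by
          ext a
          simp [hk]
        rw [this]
        exact isOpen_univ
      · have : {b : B | TS.copy b k' ∈ {z : TS f K | ∀ b : B, z ≠ TS.copy b k}ᶜ} = ∅ := by
          ext a
          simp [hk]
        rw [this]
        exact isOpen_empty
    · exact (ha (fun b => by simp)).elim
  · refine (isOpen_TS f K).2 ⟨?_, fun k' => ?_, fun a ha => ?_⟩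
    · have : {a : A | TS.base a ∈ {z : TS f K | ∀ b : B, z ≠ TS.copy b k}} = univ := by
        ext a
        simp
      rw [this]
      exact isOpen_univ
    · by_cases hk : k' = k
      · have : {b : B | TS.copy b k' ∈ {z : TS f K | ∀ b : B, z ≠ TS.copy b k}} = ∅ := by
          ext a
          simp [hk]
        rw [this]
        exact isOpen_empty
      · have : {b : B | TS.copy b k' ∈ {z : TS f K | ∀ b : B, z ≠ TS.copy b k}} = univ := by
          ext a
          simp [hk]
        rw [this]
        exact isOpen_univ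
    · refine (finite_singleton k).subset ?_
      intro k' hk'
      by_contra hne
      apply hk'
      intro b hb
      injection hb with _ hb
      exact hne hb

lemma CC_base : CC (TopCat.ofHom ⟨(TS.base : A → TS f K), continuous_base f K⟩) := by
  rw [CC, rlp_iff]
  intro X Y g hg u v hu hv huv
  have h1 : ∀ y, ∃ a : A, TS.base a = v y := by
    intro y
    rcases hvy : v y with a | ⟨b, k⟩
    · exact ⟨a, rfl⟩
    · exfalso
      have h2 := hg (v ⁻¹' {z : TS f K | ∀ b : B, z ≠ TS.copy b k})
        ((isClopen_compl_copy f K k).preimage hv) (by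
          rintro _ ⟨x, rfl⟩ b' hb'
          rw [← huv] at hb'
          have : (TS.base (u x) : TS f K) = TS.copy b' k := hb'
          injection this)
      have h3 : y ∈ v ⁻¹' {z : TS f K | ∀ b : B, z ≠ TS.copy b k} := h2 ▸ mem_univ y
      exact h3 b hvy
  choose w hw using h1
  refine ⟨w, ?_, fun x => ?_, hw⟩
  · rw [(isInducing_base f K).continuous_iff]
    have : (TS.base : A → TS f K) ∘ w = v := funext hw
    rw [this]
    exact hv
  · have h2 : (TS.base (w (g x)) : TS f K) = TS.base (u x) := (hw (g x)).trans (huv x).symm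
    injection h2

end test

lemma CC_rlp_le : CC.{u}.rlp ≤ Gen := by
  intro A B f h
  -- the index set
  let K : Type u := Set (A × Set A × ℕ)
  obtain ⟨k, hk, hk1, hk2⟩ := rlp_test h (TS.base : A → TS f K) (continuous_base f K)
    (CC_base f K) id (tsProj f K) continuous_id (continuous_tsProj f K) (fun _ => rfl)
  -- the exceptional sets
  have hfin : ∀ (a : A) (U : Set A), IsOpen U → a ∈ U →
      {κ : K | k (TS.copy (f a) κ) ∉ U}.Finite := by
    intro a U hU ha
    refine ((isOpen_TS f K).1 (hU.preimage hk)).2.2 a ?_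
    change k (TS.base a) ∈ U
    rw [hk1 a]
    exact ha
  have hsurj : ∀ (a : A) (U : Set A), ∃ e : ℕ → K, IsOpen U → a ∈ U →
      ∀ κ : K, k (TS.copy (f a) κ) ∉ U → ∃ n, e n = κ := by
    intro a U
    by_cases hU : IsOpen U ∧ a ∈ U ∧ {κ : K | k (TS.copy (f a) κ) ∉ U}.Nonempty
    · obtain ⟨e, he⟩ := (hfin a U hU.1 hU.2.1).countable.exists_eq_range hU.2.2
      refine ⟨e, fun _ _ κ hκ => ?_⟩
      have : κ ∈ {κ : K | k (TS.copy (f a) κ) ∉ U} := hκ
      rw [he] at this
      exact this
    · refine ⟨fun _ => (∅ : Set (A × Set A × ℕ)), fun h1 h2 κ hκ => ?_⟩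
      exact (hU ⟨h1, h2, κ, hκ⟩).elim
  choose e he using hsurj
  have hns := Function.cantor_surjective (fun x : A × Set A × ℕ => e x.1 x.2.1 x.2.2)
  simp only [Function.Surjective, not_forall, not_exists] at hns
  obtain ⟨κ, hκ⟩ := hns
  refine ⟨fun b => k (TS.copy b κ), ?_, fun b => hk2 _, fun a => ?_⟩
  · rw [continuous_def]
    intro U hU
    exact ((isOpen_TS f K).1 (hU.preimage hk)).2.1 κ
  · rw [specializes_iff_forall_open]
    intro U hU ha
    by_contra hn
    obtain ⟨n, hn⟩ := he a U hU ha κ hn
    exact hκ (a, U, n) hn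

lemma ClEmb_rlp_eq : ClEmb.{u}.rlp = Gen :=
  le_antisymm ((MorphismProperty.antitone_rlp CC_le_ClEmb).trans CC_rlp_le) Gen_le_ClEmb_rlp

lemma CC_rlp_eq : CC.{u}.rlp = Gen :=
  le_antisymm CC_rlp_le (Gen_le_ClEmb_rlp.trans (MorphismProperty.antitone_rlp CC_le_ClEmb))

end Q178.Orth
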